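import Pool.Agent.Helper6.CT.Col

/-! # CT-KEY: the minors of the columns at a place -/

set_option autoImplicit false

namespace Pool.Agent.Helper6.CT

open Pool.Agent.Helper8.LG
open Pool.Agent.Helper6.CO

open scoped BigOperators

/-- the number of the rows which are coordinates of the point -/
def nx {σ ι Tt J : Type*} [Fintype J] (ρ : J → (σ ⊕ ι) ⊕ Tt) : ℕ :=
  (Finset.univ.filter fun s =>
    (Sum.elim (Sum.elim (fun _ => true) (fun _ => false)) (fun _ => false) (ρ s) : Bool) =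
      true).card

theorem u_minor {E : Type*} [Field E] {σ ι κ Tt K : Type*} [Fintype σ] [DecidableEq σ]
    [DecidableEq ι] [Finite κ] [Fintype K] [DecidableEq K]
    {n : κ → ℕ} {d : ι → ℕ} {a : (i : ι) → Sym σ (d i) → E}
    {D : Ix σ (fun t => n t + 1) → Derivation ℤ E E}
    {θ : Tt → Ix σ (fun t => n t + 1) → E} {Z Y : Finset ι} {x : σ → E}
    (bl : κ → ι) {bb : κ → ℕ} (p : (t : κ) → Sym σ (bb t) → E)
    (hdeg : ∀ t, d (bl t) = bb t + (n t + 1))
    (fs : K → Σ t : κ, Sym σ (n t) × σ × σ)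
    (hbsp : ∀ s, syz n a D θ Z x s ∈
      Submodule.span E (Set.range (colO n a D θ Z fs x)))
    (hU : ∀ i ∉ Z, form (a i) x ≠ 0) (i₀ : σ) (hx : x i₀ = 1)
    (r : κ → ℕ) (S : Set κ) [Fintype S] [DecidableEq (Option K ⊕ S)]
    (hF2 : ∀ t, colR n a D θ Z x i₀ t ∈
      Submodule.span E (Set.range (colO n a D θ Z fs x)) ⊔
        Submodule.span E (colR n a D θ Z x i₀ '' {s | s ∈ S ∧ r s ≤ r t}))
    (hF3 : ∀ s t t', bl t = bl t' → bl s ≠ bl t → r s ≤ r t → r s < r t')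
    (lam : ((σ ⊕ ι) ⊕ Tt → E) →ₗ[E] (ι → E))
    (hV : ∀ v ∈ Submodule.span E (Set.range (colO n a D θ Z fs x)), lam v = 0)
    (hC : ∀ t, lam (colR n a D θ Z x i₀ t) = Pi.single (bl t) (-(form (p t) x)))
    (hSne : ∀ i, ∃ t, bl t = i)
    (sp : ι → Prop) [DecidablePred sp] (hspY : ∀ i, sp i → i ∈ Y)
    (hone : ∀ t ∈ S, sp (bl t) → ∀ s ∈ S, bl s = bl t → s = t)
    (hne : ∀ t ∈ S, sp (bl t) → form (p t) x ≠ 0)
    (ρ : Option K ⊕ S → (σ ⊕ ι) ⊕ Tt) (hρZ : ∀ s i, ρ s = Sum.inl (Sum.inr i) → i ∉ Z)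
    (O : ValuationSubring E) (Δ : E) (hO : Bdd D Δ O) (hθ : ∀ j s, Δ * θ j s ∈ O)
    (hrow : ∀ i ∉ Z, RowBdd D Δ O x (form (a i)) 1 0) (hnul : Nul bl p Y O Δ x)
    (j₀ : σ) (hj : x j₀ ≠ 0) (hjO : ∀ l, x l / x j₀ ∈ O) :
    ∃ N : E, (Δ ^ 2) ^ Fintype.card (Option K ⊕ S) * N ∈ O ∧
      Matrix.det (Matrix.of fun s t => colU n a D θ Z fs S x i₀
        (fun t => if sp (bl t) then (form (p t) x)⁻¹ else 1) id t (ρ s)) *
        x j₀ ^ (∑ t : S, if sp (bl t) then d (bl t) else n t + 1) =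
        x j₀ ^ (nx ρ + Fintype.card K) * N := by
  have hf' : ∀ i, ∃ t, sp i → bl t = i ∧ form (p t) (fun l => x l / x j₀) ≠ 0 ∧
      Δ * (form (p t) fun l => x l / x j₀)⁻¹ ∈ O := by
    intro i
    by_cases hsp : sp i
    · obtain ⟨t, ht⟩ := hnul i (hspY i hsp) j₀ hj hjO
      exact ⟨t, fun _ => ht⟩
    · obtain ⟨t, _⟩ := hSne i
      exact ⟨t, fun h => absurd h hsp⟩
  choose f hf using hf'
  have hgO : ∀ t : S, Δ * (if sp (bl t) then (form (p (f (bl t))) fun l => x l / x j₀)⁻¹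
      else 1) ∈ O := by
    intro t
    by_cases hsp : sp (bl t)
    · rw [if_pos hsp]
      exact (hf (bl t) hsp).2.2
    · rw [if_neg hsp, mul_one]
      exact hO.1
  refine det_estU O Δ (x j₀) ρ
    (Sum.elim (Sum.elim (fun _ => x j₀) (fun _ => 1)) (fun _ => 1))
    (colU n a D θ Z fs S x i₀ (fun t => if sp (bl t) then (form (p t) x)⁻¹ else 1) id)
    (colU n a D θ Z fs S (fun l => x l / x j₀) j₀
        (fun t => if sp (bl t) then (form (p (f (bl t))) fun l => x l / x j₀)⁻¹ else 1)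
        (fun t => if sp (bl t) then f (bl t) else t)) (rkU K S r)
    (gU K S (fun t => if sp (bl t) then d (bl t) else n t + 1) (x j₀)) (nx ρ) ?_ ?_
    _ (Fintype.card K) (prod_gU S _ (x j₀) hj) ?_
  · rw [nx, ← Finset.prod_const, Finset.prod_filter]
    refine Finset.prod_congr rfl fun s _ => ?_
    rcases h : ρ s with (l | i) | j <;> simp
  · intro t
    have h1 := trans_memO bl p hdeg fs hbsp hU i₀ hx j₀ hj r S hF2 hF3 lam hV hC sp hone hne
      f (fun i hi => ⟨(hf i hi).1, (hf i hi).2.1⟩) t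
    obtain ⟨F, hF0, hFs⟩ := exists_coef _ _ h1
    refine ⟨F + Pi.single t (gU K S (fun t => if sp (bl t) then d (bl t) else n t + 1) (x j₀) t),
      ?_, ?_, ?_⟩
    · intro r'
      have h2 := congrFun hFs r'
      rw [Finset.sum_apply] at h2
      simp only [Pi.smul_apply, Pi.sub_apply, smul_eq_mul, phi_apply] at h2
      simp only [Pi.add_apply, add_mul, Finset.sum_add_distrib]
      rw [h2, Finset.sum_eq_single t]
      · rw [Pi.single_eq_same]
        exact (sub_add_cancel _ _).symm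
      · intro t' _ ht'
        rw [Pi.single_eq_of_ne ht', zero_mul]
      · intro h
        exact absurd (Finset.mem_univ t) h
    · rw [Pi.add_apply, Pi.single_eq_same, hF0 t (fun h => lt_irrefl (rkU K S r t) h), zero_add]
    · intro t' ht' hrk
      rw [Pi.add_apply, Pi.single_eq_of_ne ht', hF0 t' (fun h => absurd h (not_lt.2 hrk)),
        zero_add]
  · intro s t
    refine entry_memU fs S j₀ _ _ O Δ hgO _ hjO hO hθ (ρ s) (fun i hi => ?_) t
    obtain ⟨_, h2⟩ := hrow i (hρZ s i hi) j₀ hj hjO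
    refine ⟨hρZ s i hi, fun p => ?_⟩
    have h3 := h2 p
    rwa [pow_zero, div_one, one_mul] at h3

end Pool.Agent.Helper6.CT
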