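import Pool.Agent.Helper6.CO.KeyTrans
import Pool.Agent.Helper6.CO.KeyDet

/-! # CT-KEY: the columns, with a family of syzygies -/

set_option autoImplicit false

namespace Pool.Agent.Helper6.CT

open Pool.Agent.Helper8.LG
open Pool.Agent.Helper8.LV (kf_form_scale)
open Pool.Agent.Helper6.CO

open scoped BigOperators

section

variable {E : Type*} [Field E] {σ ι κ Tt K : Type*} [Fintype σ] [DecidableEq σ] [DecidableEq ι]
  {n : κ → ℕ} {d : ι → ℕ} {a : (i : ι) → Sym σ (d i) → E}
  {D : Ix σ (fun t => n t + 1) → Derivation ℤ E E}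
  {θ : Tt → Ix σ (fun t => n t + 1) → E} {Z : Finset ι} {x : σ → E}

/-- the Euler column and the syzygies `fs k` -/
def colO (n : κ → ℕ) {d : ι → ℕ} (a : (i : ι) → Sym σ (d i) → E)
    (D : Ix σ (fun t => n t + 1) → Derivation ℤ E E)
    (θ : Tt → Ix σ (fun t => n t + 1) → E) (Z : Finset ι)
    (fs : K → Σ t : κ, Sym σ (n t) × σ × σ) (x : σ → E) (o : Option K) :
    (σ ⊕ ι) ⊕ Tt → E :=
  o.elim (eul d Z x) fun k => syz n a D θ Z x (fs k)

theorem span_tildeO (fs : K → Σ t : κ, Sym σ (n t) × σ × σ)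
    (hbsp : ∀ s, syz n a D θ Z x s ∈
      Submodule.span E (Set.range (colO n a D θ Z fs x)))
    (hU : ∀ i ∉ Z, form (a i) x ≠ 0) {c : E} (hc : c ≠ 0)
    (s : Σ t : κ, Sym σ (n t) × σ × σ) :
    syz n a D θ Z (fun l => x l / c) s ∈
      Submodule.span E (Set.range (colO n a D θ Z fs fun l => x l / c)) := by
  set W := Submodule.span E (Set.range (colO n a D θ Z fs fun l => x l / c)) with hW
  have h0 : eul d Z (fun l => x l / c) ∈ W := Submodule.subset_span ⟨none, rfl⟩
  have h0' : (eul d Z x : (σ ⊕ ι) ⊕ Tt → E) ∈ W.map (phi c) := by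
    rw [eul_scale d Z x c hc]
    exact Submodule.mem_map_of_mem h0
  have h1 : Submodule.span E (Set.range (colO n a D θ Z fs x)) ≤
      W.map (phi c) := by
    rw [Submodule.span_le]
    rintro _ ⟨o, rfl⟩
    rcases o with _ | k
    · exact h0'
    · obtain ⟨bb, hbb⟩ := syz_scale n a D θ Z x hU c hc (fs k)
      change syz n a D θ Z x (fs k) ∈ W.map (phi c)
      rw [hbb]
      exact add_mem (Submodule.smul_mem _ _ (Submodule.mem_map_of_mem
        (Submodule.subset_span ⟨some k, rfl⟩))) (Submodule.smul_mem _ _ h0')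
  obtain ⟨bb, hbb⟩ := syz_scale n a D θ Z x hU c hc s
  have h2 := h1 (hbsp s)
  have h3 : c • phi c (syz n a D θ Z (fun l => x l / c) s) ∈ W.map (phi c) := by
    have h4 := sub_mem h2 (Submodule.smul_mem _ bb h0')
    rwa [hbb, add_sub_cancel_right] at h4
  have h5 : phi c (syz n a D θ Z (fun l => x l / c) s) ∈ W.map (phi c) := by
    have h6 := Submodule.smul_mem _ c⁻¹ h3
    rwa [smul_smul, inv_mul_cancel₀ hc, one_smul] at h6
  obtain ⟨y, hy, hy2⟩ := h5
  rw [← phi_inj hc hy2]
  exact hy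

/-- all the columns -/
def colU (n : κ → ℕ) {d : ι → ℕ} (a : (i : ι) → Sym σ (d i) → E)
    (D : Ix σ (fun t => n t + 1) → Derivation ℤ E E)
    (θ : Tt → Ix σ (fun t => n t + 1) → E) (Z : Finset ι)
    (fs : K → Σ t : κ, Sym σ (n t) × σ × σ) (S : Set κ) (x : σ → E) (j : σ)
    (g : κ → E) (f : κ → κ) : (Option K ⊕ S) → (σ ⊕ ι) ⊕ Tt → E :=
  Sum.elim (colO n a D θ Z fs x) fun t : S => g t • colR n a D θ Z x j (f t)

/-- the ranks of the columns -/
def rkU (K : Type*) (S : Set κ) (r : κ → ℕ) : (Option K ⊕ S) → ℕ :=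
  Sum.elim (fun o => o.elim 0 fun _ => 1) fun t : S => 2 + r t

/-- the diagonal entries of the transition matrix -/
def gU (K : Type*) (S : Set κ) (Q : κ → ℕ) (c : E) : (Option K ⊕ S) → E :=
  Sum.elim (fun o => o.elim 1 fun _ => c) fun t : S => (c ^ Q t)⁻¹

theorem colU_span (fs : K → Σ t : κ, Sym σ (n t) × σ × σ) (S : Set κ)
    (i₀ : σ) (g : κ → E) (f : κ → κ) (t : Option K ⊕ S) :
    (fun l => colU n a D θ Z fs S x i₀ g f t (Sum.inl (Sum.inl l))) ∈
      Submodule.span E (Set.range (col D x)) := by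
  have h1 : ∀ q, col D x q ∈ Submodule.span E (Set.range (col D x)) :=
    fun q => Submodule.subset_span ⟨q, rfl⟩
  rcases t with o | t
  · rcases o with _ | k
    · exact h1 none
    · exact sub_mem (Submodule.smul_mem _ (x (fs k).2.2.1)
          (h1 (some ⟨(fs k).1, (fs k).2.2.2 ::ₛ (fs k).2.1⟩)))
        (Submodule.smul_mem _ (x (fs k).2.2.2)
          (h1 (some ⟨(fs k).1, (fs k).2.2.1 ::ₛ (fs k).2.1⟩)))
  · exact Submodule.smul_mem _ (g t) (h1 (some ⟨f t, Sym.replicate (n (f t) + 1) i₀⟩))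

theorem colU_zero (fs : K → Σ t : κ, Sym σ (n t) × σ × σ) (S : Set κ)
    (i₀ : σ) (g : κ → E) (f : κ → κ) (t : Option K ⊕ S) {i : ι} (hi : i ∈ Z) :
    colU n a D θ Z fs S x i₀ g f t (Sum.inl (Sum.inr i)) = 0 := by
  rcases t with o | t
  · rcases o with _ | k
    · exact eul_row (Tt := Tt) Z x hi
    · exact syz_row n a D θ Z x (fs k) hi
  · have h1 := cv_row n a D θ Z x ⟨f t, Sym.replicate (n (f t) + 1) i₀⟩ hi
    change g t * cv n a D θ Z x ⟨f t, Sym.replicate (n (f t) + 1) i₀⟩ (Sum.inl (Sum.inr i)) = 0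
    rw [h1, mul_zero]

omit [DecidableEq ι] [Fintype σ] [DecidableEq σ] in
theorem prod_gU [Fintype K] (S : Set κ) [Fintype S] (Q : κ → ℕ) (c : E) (hc : c ≠ 0) :
    (∏ t, gU K S Q c t) * c ^ ∑ t : S, Q t = c ^ Fintype.card K := by
  classical
  rw [Fintype.prod_sum_type]
  have h1 : ∏ t : S, gU K S Q c (Sum.inr t) = (c ^ ∑ t : S, Q t)⁻¹ := by
    rw [← Finset.prod_pow_eq_pow_sum, ← Finset.prod_inv_distrib]
    rfl
  have h2 : ∏ o : Option K, gU K S Q c (Sum.inl o) = c ^ Fintype.card K := by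
    rw [Fintype.prod_option]
    change 1 * ∏ _k : K, c = _
    rw [one_mul, Finset.prod_const, Finset.card_univ]
  rw [h1, h2, mul_assoc, inv_mul_cancel₀ (pow_ne_zero _ hc), mul_one]

/-- the basis columns -/
theorem colO_mem (fs : K → Σ t : κ, Sym σ (n t) × σ × σ)
    (hU : ∀ i ∉ Z, form (a i) x ≠ 0) {c : E} (hc : c ≠ 0) (o : Option K) :
    colO n a D θ Z fs x o ∈ Submodule.span E
      (Set.range fun o : Option K => phi c (colO n a D θ Z fs (fun l => x l / c) o)) := by
  have h0 : (eul d Z x : (σ ⊕ ι) ⊕ Tt → E) ∈ Submodule.span E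
      (Set.range fun o : Option K => phi c (colO n a D θ Z fs (fun l => x l / c) o)) := by
    rw [eul_scale d Z x c hc]
    exact Submodule.subset_span ⟨none, rfl⟩
  rcases o with _ | k
  · exact h0
  · obtain ⟨bb, hbb⟩ := syz_scale n a D θ Z x hU c hc (fs k)
    change syz n a D θ Z x (fs k) ∈ _
    rw [hbb]
    exact add_mem (Submodule.smul_mem _ _ (Submodule.subset_span ⟨some k, rfl⟩))
      (Submodule.smul_mem _ _ h0)

/-- the columns of the moving forms -/
theorem colR_memO (fs : K → Σ t : κ, Sym σ (n t) × σ × σ)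
    (hbsp : ∀ s, syz n a D θ Z x s ∈
      Submodule.span E (Set.range (colO n a D θ Z fs x)))
    (hU : ∀ i ∉ Z, form (a i) x ≠ 0) (i₀ : σ) (hx : x i₀ = 1) (j₀ : σ) (hj : x j₀ ≠ 0)
    (t : κ) :
    colR n a D θ Z x i₀ t - (x j₀ ^ (n t + 1))⁻¹ •
        phi (x j₀) (colR n a D θ Z (fun l => x l / x j₀) j₀ t) ∈
      Submodule.span E
        (Set.range fun o : Option K =>
          phi (x j₀) (colO n a D θ Z fs (fun l => x l / x j₀) o)) := by
  set c := x j₀ with hc
  set xt : σ → E := fun l => x l / c with hxt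
  have h1 := cv_sub_mem n a D θ Z xt j₀ t (Sym.replicate (n t + 1) i₀)
  have hxj : xt j₀ = 1 := div_self hj
  rw [hxj, one_pow, one_smul, mon_rep] at h1
  have h2 : Submodule.span E (Set.range (syz n a D θ Z xt)) ≤
      Submodule.span E (Set.range (colO n a D θ Z fs xt)) := by
    rw [Submodule.span_le]
    rintro _ ⟨s, rfl⟩
    exact span_tildeO fs hbsp hU hj s
  have h3 := h2 h1
  have hxi : xt i₀ ^ (n t + 1) = (c ^ (n t + 1))⁻¹ := by
    rw [hxt]
    simp only
    rw [hx, one_div, inv_pow]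
  rw [hxi] at h3
  have h4 : ∀ z, z ∈ Submodule.span E (Set.range (colO n a D θ Z fs xt)) →
      phi c z ∈ Submodule.span E
        (Set.range fun o : Option K => phi c (colO n a D θ Z fs xt o)) := by
    intro z hz
    have h5 := Submodule.mem_map_of_mem (f := phi (σ := σ) (ι := ι) (τ := Tt) c) hz
    rw [Submodule.map_span, ← Set.range_comp] at h5
    exact h5
  have h6 := h4 _ h3
  rw [map_sub, map_smul] at h6
  have h7 := cv_scale n a D θ Z x hU c hj ⟨t, Sym.replicate (n t + 1) i₀⟩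
  have h8 : colR n a D θ Z x i₀ t - (c ^ (n t + 1))⁻¹ • phi c (colR n a D θ Z xt j₀ t) =
      (phi c (cv n a D θ Z xt ⟨t, Sym.replicate (n t + 1) i₀⟩) -
        (c ^ (n t + 1))⁻¹ • phi c (cv n a D θ Z xt ⟨t, Sym.replicate (n t + 1) j₀⟩)) +
        (D ⟨t, Sym.replicate (n t + 1) i₀⟩ c / c) • eul d Z x := by
    change cv n a D θ Z x ⟨t, Sym.replicate (n t + 1) i₀⟩ - _ = _
    rw [h7]
    change _ - (c ^ (n t + 1))⁻¹ • phi c (cv n a D θ Z xt ⟨t, Sym.replicate (n t + 1) j₀⟩) = _
    abel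
  rw [h8]
  refine add_mem h6 (Submodule.smul_mem _ _ ?_)
  rw [eul_scale d Z x c hj]
  exact Submodule.subset_span ⟨none, rfl⟩

theorem trans_memO [Finite κ] (bl : κ → ι) {bb : κ → ℕ} (p : (t : κ) → Sym σ (bb t) → E)
    (hdeg : ∀ t, d (bl t) = bb t + (n t + 1))
    (fs : K → Σ t : κ, Sym σ (n t) × σ × σ)
    (hbsp : ∀ s, syz n a D θ Z x s ∈
      Submodule.span E (Set.range (colO n a D θ Z fs x)))
    (hU : ∀ i ∉ Z, form (a i) x ≠ 0) (i₀ : σ) (hx : x i₀ = 1) (j₀ : σ) (hj : x j₀ ≠ 0)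
    (r : κ → ℕ) (S : Set κ)
    (hF2 : ∀ t, colR n a D θ Z x i₀ t ∈
      Submodule.span E (Set.range (colO n a D θ Z fs x)) ⊔
        Submodule.span E (colR n a D θ Z x i₀ '' {s | s ∈ S ∧ r s ≤ r t}))
    (hF3 : ∀ s t t', bl t = bl t' → bl s ≠ bl t → r s ≤ r t → r s < r t')
    (lam : ((σ ⊕ ι) ⊕ Tt → E) →ₗ[E] (ι → E))
    (hV : ∀ v ∈ Submodule.span E (Set.range (colO n a D θ Z fs x)), lam v = 0)
    (hC : ∀ t, lam (colR n a D θ Z x i₀ t) = Pi.single (bl t) (-(form (p t) x)))
    (sp : ι → Prop) [DecidablePred sp]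
    (hone : ∀ t ∈ S, sp (bl t) → ∀ s ∈ S, bl s = bl t → s = t)
    (hne : ∀ t ∈ S, sp (bl t) → form (p t) x ≠ 0)
    (f : ι → κ) (hf : ∀ i, sp i → bl (f i) = i ∧ form (p (f i)) (fun l => x l / x j₀) ≠ 0)
    (t : Option K ⊕ S) :
    colU n a D θ Z fs S x i₀ (fun t => if sp (bl t) then (form (p t) x)⁻¹ else 1) id t -
      gU K S (fun t => if sp (bl t) then d (bl t) else n t + 1) (x j₀) t •
        phi (x j₀) (colU n a D θ Z fs S (fun l => x l / x j₀) j₀
          (fun t => if sp (bl t) then (form (p (f (bl t))) fun l => x l / x j₀)⁻¹ else 1)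
          (fun t => if sp (bl t) then f (bl t) else t) t) ∈
      Submodule.span E ((fun t' => phi (x j₀) (colU n a D θ Z fs S (fun l => x l / x j₀) j₀
          (fun t => if sp (bl t) then (form (p (f (bl t))) fun l => x l / x j₀)⁻¹ else 1)
          (fun t => if sp (bl t) then f (bl t) else t) t')) ''
            {t' | rkU K S r t' < rkU K S r t}) := by
  set c := x j₀ with hc
  set xt : σ → E := fun l => x l / c with hxt
  set g : κ → E := fun t => if sp (bl t) then (form (p t) x)⁻¹ else 1 with hg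
  set gt : κ → E := fun t => if sp (bl t) then (form (p (f (bl t))) xt)⁻¹ else 1 with hgt
  set ft : κ → κ := fun t => if sp (bl t) then f (bl t) else t with hft
  set Q : κ → ℕ := fun t => if sp (bl t) then d (bl t) else n t + 1 with hQ
  set Kt := colU n a D θ Z fs S xt j₀ gt ft with hKt
  set X2 := Submodule.span E
    (Set.range fun o : Option K => phi c (colO n a D θ Z fs xt o)) with hX2
  -- the part of the basis
  have hX2le : ∀ m, 2 ≤ m → X2 ≤ Submodule.span E ((fun t' => phi c (Kt t')) ''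
      {t' | rkU K S r t' < m}) := by
    intro m hm
    rw [hX2, Submodule.span_le]
    rintro _ ⟨o, rfl⟩
    refine Submodule.subset_span ⟨Sum.inl o, ?_, rfl⟩
    rcases o with _ | s
    · change 0 < m
      omega
    · change 1 < m
      omega
  -- the other columns
  have key : ∀ (N : ℕ) (t : κ) (ht : t ∈ S), r t = N →
      g t • colR n a D θ Z x i₀ t - (c ^ Q t)⁻¹ • phi c (gt t • colR n a D θ Z xt j₀ (ft t)) ∈
      Submodule.span E ((fun t' => phi c (Kt t')) '' {t' | rkU K S r t' < 2 + r t}) := by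
    intro N
    induction N using Nat.strong_induction_on with
    | _ N ih =>
      intro t ht htN
      by_cases hsp : sp (bl t)
      · obtain ⟨hf1, hf2⟩ := hf (bl t) hsp
        obtain ⟨cc, v, w, hv, hw, h1, h2⟩ := flag_one bl _ (colR n a D θ Z x i₀) r S hF2 hF3 lam
          (fun t => form (p t) x) hV hC t (fun s hs hst => hone t ht hsp s hs hst) (f (bl t)) hf1
        have hmt : form (p t) x ≠ 0 := hne t ht hsp
        have hm1 : form (p (f (bl t))) x = c ^ bb (f (bl t)) * form (p (f (bl t))) xt :=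
          kf_form_scale (p (f (bl t))) x c hj
        have hm1' : form (p (f (bl t))) x ≠ 0 := by
          rw [hm1]
          exact mul_ne_zero (pow_ne_zero _ hj) hf2
        have hcc : cc ≠ 0 := by
          intro h
          apply hm1'
          rw [h2, h, zero_mul]
        have hgt' : g t = (form (p t) x)⁻¹ := if_pos hsp
        have hgtt : gt t = (form (p (f (bl t))) xt)⁻¹ := if_pos hsp
        have hftt : ft t = f (bl t) := if_pos hsp
        have hQt : Q t = bb (f (bl t)) + (n (f (bl t)) + 1) := by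
          rw [hQ]
          simp only [if_pos hsp]
          rw [← hdeg, hf1]
        have h3 : g t • colR n a D θ Z x i₀ t - (c ^ Q t)⁻¹ •
            phi c (gt t • colR n a D θ Z xt j₀ (ft t)) =
            (form (p (f (bl t))) x)⁻¹ • ((colR n a D θ Z x i₀ (f (bl t)) -
              (c ^ (n (f (bl t)) + 1))⁻¹ • phi c (colR n a D θ Z xt j₀ (f (bl t)))) - v - w) := by
          have h4 : g t • colR n a D θ Z x i₀ t = (form (p (f (bl t))) x)⁻¹ •
              (colR n a D θ Z x i₀ (f (bl t)) - v - w) := by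
            rw [h1, hgt']
            have h5 : v + w + cc • colR n a D θ Z x i₀ t - v - w =
                cc • colR n a D θ Z x i₀ t := by abel
            rw [h5, smul_smul, h2]
            congr 1
            field_simp
          have h6 : (c ^ Q t)⁻¹ • phi c (gt t • colR n a D θ Z xt j₀ (ft t)) =
              (form (p (f (bl t))) x)⁻¹ • ((c ^ (n (f (bl t)) + 1))⁻¹ •
                phi c (colR n a D θ Z xt j₀ (f (bl t)))) := by
            rw [hgtt, hftt, map_smul, smul_smul, smul_smul, hQt, hm1, pow_add]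
            congr 1
            have h7 : c ^ bb (f (bl t)) ≠ 0 := pow_ne_zero _ hj
            have h8 : c ^ (n (f (bl t)) + 1) ≠ 0 := pow_ne_zero _ hj
            field_simp
          rw [h4, h6, ← smul_sub]
          congr 1
          abel
        rw [h3]
        refine Submodule.smul_mem _ _ (sub_mem (sub_mem ?_ ?_) ?_)
        · exact hX2le _ (by omega) (colR_memO fs hbsp hU i₀ hx j₀ hj (f (bl t)))
        · refine hX2le _ (by omega) ?_
          have h5 : Submodule.span E (Set.range (colO n a D θ Z fs x)) ≤ X2 := by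
            rw [Submodule.span_le]
            rintro _ ⟨o, rfl⟩
            exact colO_mem fs hU hj o
          exact h5 hv
        · refine (Submodule.span_le.2 ?_ : Submodule.span E
            (colR n a D θ Z x i₀ '' {s | s ∈ S ∧ r s < r t}) ≤ _) hw
          rintro _ ⟨s, ⟨hs1, hs2⟩, rfl⟩
          have h5 := ih (r s) (by rw [← htN]; exact hs2) s hs1 rfl
          have h6 : Submodule.span E ((fun t' => phi c (Kt t')) '' {t' | rkU K S r t' < 2 + r s}) ≤
              Submodule.span E ((fun t' => phi c (Kt t')) '' {t' | rkU K S r t' < 2 + r t}) :=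
            Submodule.span_mono (Set.image_mono fun t' ht' =>
              (show rkU K S r t' < 2 + r s from ht').trans
                (show 2 + r s < 2 + r t from Nat.add_lt_add_left hs2 2))
          have h7 := h6 h5
          have h8 : (c ^ Q s)⁻¹ • phi c (gt s • colR n a D θ Z xt j₀ (ft s)) ∈
              Submodule.span E ((fun t' => phi c (Kt t')) '' {t' | rkU K S r t' < 2 + r t}) := by
            refine Submodule.smul_mem _ _ (Submodule.subset_span ⟨Sum.inr ⟨s, hs1⟩, ?_, rfl⟩)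
            change 2 + r s < 2 + r t
            omega
          have h9 := add_mem h7 h8
          rw [sub_add_cancel] at h9
          have hgs : g s ≠ 0 := by
            rw [hg]
            by_cases hsps : sp (bl s)
            · simp only [if_pos hsps]
              exact inv_ne_zero (hne s hs1 hsps)
            · simp only [if_neg hsps]
              exact one_ne_zero
          have h10 := Submodule.smul_mem _ (g s)⁻¹ h9
          rwa [smul_smul, inv_mul_cancel₀ hgs, one_smul] at h10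
      · have hgt' : g t = 1 := if_neg hsp
        have hgtt : gt t = 1 := if_neg hsp
        have hftt : ft t = t := if_neg hsp
        have hQt : Q t = n t + 1 := if_neg hsp
        rw [hgt', hgtt, hftt, hQt, one_smul, one_smul]
        exact hX2le _ (by omega) (colR_memO fs hbsp hU i₀ hx j₀ hj t)
  rcases t with o | ⟨t, ht⟩
  · rcases o with _ | k
    · change eul d Z x - (1 : E) • phi c (eul d Z xt) ∈ _
      rw [one_smul, ← eul_scale d Z x c hj, sub_self]
      exact zero_mem _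
    · change syz n a D θ Z x (fs k) - c • phi c (syz n a D θ Z xt (fs k)) ∈ _
      obtain ⟨bb', hbb⟩ := syz_scale n a D θ Z x hU c hj (fs k)
      rw [hbb, add_sub_cancel_left]
      refine Submodule.smul_mem _ _ ?_
      rw [eul_scale d Z x c hj]
      exact Submodule.subset_span ⟨Sum.inl none, Nat.zero_lt_one, rfl⟩
  · exact key (r t) t ht rfl

theorem entry_memU (fs : K → Σ t : κ, Sym σ (n t) × σ × σ) (S : Set κ)
    (j₀ : σ) (g : κ → E) (f : κ → κ)
    (O : ValuationSubring E) (Δ : E) (hg : ∀ t : S, Δ * g t ∈ O)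
    (xt : σ → E) (hxt : ∀ l, xt l ∈ O) (hD : Bdd D Δ O) (hθ : ∀ j s, Δ * θ j s ∈ O)
    (r : (σ ⊕ ι) ⊕ Tt)
    (hr : ∀ i, r = Sum.inl (Sum.inr i) → i ∉ Z ∧
      ∀ p, Δ * (D p (form (a i) xt) / form (a i) xt) ∈ O) (t : Option K ⊕ S) :
    Δ ^ 2 * colU n a D θ Z fs S xt j₀ g f t r ∈ O := by
  have h1 : Δ * eul d Z xt r ∈ O := by
    rcases r with (l | i) | j
    · simp only [eul, Sum.elim_inl]
      exact mul_mem hD.1 (hxt l)
    · obtain ⟨h2, _⟩ := hr i rfl
      simp only [eul, Sum.elim_inl, Sum.elim_inr, if_neg h2]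
      exact mul_mem hD.1 (natCast_mem O _)
    · simp only [eul, Sum.elim_inr, mul_zero]
      exact zero_mem O
  have h2 : ∀ p, Δ * cv n a D θ Z xt p r ∈ O := by
    intro p
    rcases r with (l | i) | j
    · simp only [cv, Sum.elim_inl]
      exact hD.2 p _ (hxt l)
    · obtain ⟨h2, h3⟩ := hr i rfl
      simp only [cv, Sum.elim_inl, Sum.elim_inr, if_neg h2]
      exact h3 p
    · simp only [cv, Sum.elim_inr]
      exact hθ j p
  rcases t with o | t
  · rw [pow_two, mul_assoc]
    refine mul_mem hD.1 ?_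
    rcases o with _ | k
    · exact h1
    · have h3 : colU n a D θ Z fs S xt j₀ g f (Sum.inl (some k)) r =
          xt (fs k).2.2.1 * cv n a D θ Z xt ⟨(fs k).1, (fs k).2.2.2 ::ₛ (fs k).2.1⟩ r -
            xt (fs k).2.2.2 * cv n a D θ Z xt ⟨(fs k).1, (fs k).2.2.1 ::ₛ (fs k).2.1⟩ r := rfl
      have h4 := sub_mem
        (mul_mem (hxt (fs k).2.2.1) (h2 ⟨(fs k).1, (fs k).2.2.2 ::ₛ (fs k).2.1⟩))
        (mul_mem (hxt (fs k).2.2.2) (h2 ⟨(fs k).1, (fs k).2.2.1 ::ₛ (fs k).2.1⟩))
      rw [h3]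
      have h5 : Δ * (xt (fs k).2.2.1 *
            cv n a D θ Z xt ⟨(fs k).1, (fs k).2.2.2 ::ₛ (fs k).2.1⟩ r -
            xt (fs k).2.2.2 * cv n a D θ Z xt ⟨(fs k).1, (fs k).2.2.1 ::ₛ (fs k).2.1⟩ r) =
          xt (fs k).2.2.1 * (Δ * cv n a D θ Z xt ⟨(fs k).1, (fs k).2.2.2 ::ₛ (fs k).2.1⟩ r) -
            xt (fs k).2.2.2 *
              (Δ * cv n a D θ Z xt ⟨(fs k).1, (fs k).2.2.1 ::ₛ (fs k).2.1⟩ r) := by
        ring
      rw [h5]
      exact h4
  · have h3 : colU n a D θ Z fs S xt j₀ g f (Sum.inr t) r =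
        g t * cv n a D θ Z xt ⟨f t, Sym.replicate (n (f t) + 1) j₀⟩ r := rfl
    rw [h3]
    have h4 : Δ ^ 2 * (g t * cv n a D θ Z xt ⟨f t, Sym.replicate (n (f t) + 1) j₀⟩ r) =
        (Δ * g t) * (Δ * cv n a D θ Z xt ⟨f t, Sym.replicate (n (f t) + 1) j₀⟩ r) := by ring
    rw [h4]
    exact mul_mem (hg t) (h2 _)

end

/-- the determinant, up to a power of `c` -/
theorem det_estU {E R J : Type*} [Field E] [Fintype J] [DecidableEq J] (O : ValuationSubring E)
    (Δ c : E) (ρ : J → R) (rf : R → E) (K Kt : J → R → E) (rk : J → ℕ)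
    (g : J → E) (nl : ℕ) (hrf : ∏ s, rf (ρ s) = c ^ nl)
    (hT : ∀ t, ∃ τ : J → E, (∀ r, K t r = ∑ t', τ t' * (rf r * Kt t' r)) ∧ τ t = g t ∧
      ∀ t', t' ≠ t → rk t ≤ rk t' → τ t' = 0)
    (M nb : ℕ) (hg : (∏ t, g t) * c ^ M = c ^ nb)
    (hent : ∀ s t, Δ ^ 2 * Kt t (ρ s) ∈ O) :
    ∃ N : E, (Δ ^ 2) ^ Fintype.card J * N ∈ O ∧
      Matrix.det (Matrix.of fun s t => K t (ρ s)) * c ^ M = c ^ (nl + nb) * N := by
  choose τ hτ1 hτ2 hτ3 using hT
  set N : Matrix J J E := Matrix.of fun s t => Kt t (ρ s) with hN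
  set T : Matrix J J E := Matrix.of fun t' t => τ t t' with hT
  have hTdet : T.det = ∏ t, g t :=
    Helper74.LG.det_tri T rk _ (fun t => hτ2 t) fun t' t h1 h2 => hτ3 t t' h1 h2
  have hmat : (Matrix.of fun s t => K t (ρ s)) =
      (Matrix.of fun s t' => rf (ρ s) * N s t') * T := by
    ext s t
    rw [Matrix.mul_apply, Matrix.of_apply, hτ1 t]
    refine Finset.sum_congr rfl fun t' _ => ?_
    simp only [hN, hT, Matrix.of_apply]
    ring
  refine ⟨N.det, ?_, ?_⟩
  · rw [← Matrix.det_smul]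
    refine Helper74.LG.det_mem O.toSubring _ fun s t => ?_
    rw [Matrix.smul_apply, smul_eq_mul]
    exact hent s t
  · rw [hmat, Matrix.det_mul, Matrix.det_mul_column, hTdet, mul_assoc, hg, hrf]
    ring

end Pool.Agent.Helper6.CT
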